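import Pool.Agent.Helper89.KN.Final

/-!
# Directed connectivity and in-degree zero in the k-nearest neighbour graph

The plane is `ℂ` with its Euclidean distance. A Poisson process of intensity `1` in the square
`[0, √n]²` of area `n` consists of `m` points, where `m` is Poisson distributed with mean `n`, and,
given `m`, the points are independent and uniformly distributed in the square. The labelled points
are `x : Fin m → ℂ`.

Idea of the proof. A set `A` of vertices is in-isolated if no arc enters it from its complement `P`.
For a set `A` hitting the cells of a fine grid with union `R` we compare the event that `A` is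
in-isolated with the event that a single vertex `v` of `A` is in-isolated by `P`: the radial map
`v + s θ ↦ v + √(s² - a θ) θ` preserves the area, hence the Poisson process, and for a suitable
function `a ≥ 0` of the direction it maps configurations which in-isolate `A` to configurations which
in-isolate `v`; the set `{s² ≤ a θ}` contains no point of `P` and has a larger area than `R`. Sets
whose diameter is at least `1.98` times their distance from `P`, and small sets without arcs leaving
them, are excluded by direct estimates and by an explicit configuration (an empty disc of radius `r`
and density `4 / 3` at the distances between `r` and `2 r`) which bounds the probability of an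
in-isolated vertex from below. At the sides of the square an independent copy is reflected.
-/

set_option autoImplicit false

open MeasureTheory Filter Topology
open scoped ENNReal

namespace Pool.Agent.Results.MP_2af9b5_pr.StrongConnectivity

/-- The square `[0, √n]²` of area `n`. -/
def square (n : ℝ) : Set ℂ := {z | 0 ≤ z.re ∧ z.re ≤ √n ∧ 0 ≤ z.im ∧ z.im ≤ √n}

/-- The probability that a Poisson process of intensity `1` in the square of area `n` satisfies `Q`:
the sum over `m` of `exp (-n) / m!` times the measure of the set of the configurations
`x : Fin m → ℂ` of `m` points of the square with `Q m x`. -/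
noncomputable def poissonProb (n : ℝ) (Q : ∀ m : ℕ, (Fin m → ℂ) → Prop) : ℝ≥0∞ :=
  ∑' m : ℕ, ENNReal.ofReal (Real.exp (-n) / m.factorial) *
    (Measure.pi fun _ : Fin m => (volume : Measure ℂ).restrict (square n)) {x | Q m x}

/-- There is an arc from `i` to `j`: `x j` is one of the `k` points closest to `x i`, that is, fewer
than `k` of the other points are closer to `x i` than `x j`. -/
def Arc (k : ℕ) {m : ℕ} (x : Fin m → ℂ) (i j : Fin m) : Prop :=
  i ≠ j ∧ {l : Fin m | l ≠ i ∧ dist (x l) (x i) < dist (x j) (x i)}.ncard < k

/-- There is a directed path from every vertex to every vertex. -/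
def DirectedConnected (k : ℕ) {m : ℕ} (x : Fin m → ℂ) : Prop :=
  ∀ i j, Relation.ReflTransGen (Arc k x) i j

/-- No vertex has in-degree zero. -/
def NoInDegreeZero (k : ℕ) {m : ℕ} (x : Fin m → ℂ) : Prop :=
  ∀ j, ∃ i, Arc k x i j

/-- For every `c > 0` and `k = ⌊c log n⌋`, the directed `k`-nearest neighbour graph of the Poisson
process in the square of area `n` is directed connected with probability tending to `1` if and only if
it has no vertex of in-degree zero with probability tending to `1`. Here `n` tends to infinity along
any filter `l ≤ atTop`, for example `atTop` itself or a sequence. -/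
theorem result (c : ℝ) (hc : 0 < c) (l : Filter ℝ) (hl : l ≤ atTop) :
    Tendsto (fun n => poissonProb n (fun _ x => DirectedConnected ⌊c * Real.log n⌋₊ x)) l (𝓝 1) ↔
      Tendsto (fun n => poissonProb n (fun _ x => NoInDegreeZero ⌊c * Real.log n⌋₊ x)) l (𝓝 1) := by
  have key : ∀ Q : ℝ → ∀ m : ℕ, (Fin m → ℂ) → Prop,
      (Tendsto (fun n => poissonProb n (Q n)) l (𝓝 1) ↔
        Tendsto (fun n => KN.prob (KN.Sq n) (Q n)) l (𝓝 1)) := by
    intro Q
    apply tendsto_congr'
    filter_upwards [hl (eventually_ge_atTop 0)] with n hn
    unfold poissonProb KN.prob
    have h1 : (volume (KN.Sq n)).toReal = n := by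
      rw [KN.volume_Sq n hn, ENNReal.toReal_ofReal hn]
    rw [h1]
    rfl
  rw [key, key]
  exact KN.final c hc l hl

end Pool.Agent.Results.MP_2af9b5_pr.StrongConnectivity
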